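import Mathlib
import Pool.Agent.Helper64.SPX.Spec3

/-!
Swarm SPX, part K4: numbering of two-connected graphs by adding ears.
-/

namespace Pool.Agent.Helper27.SPX.K4

open Finset Pool.Agent.Helper64.SPX

variable {ω : Type} [Fintype ω]

/-- the invariant -/
structure Inv (adj : ω → ω → Prop) (i : ω) (U : Finset ω) (σ : ω → ℝ) : Prop where
  notin : i ∉ U
  inj : ∀ a ∈ U, ∀ b ∈ U, σ a = σ b → a = b
  prop : ∀ k ∈ U, ¬ adj k i → (∃ j ∈ U, adj k j ∧ σ j < σ k) ∧ ∃ j ∈ U, adj k j ∧ σ k < σ j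

omit [Fintype ω] in
theorem Inv.neg {adj : ω → ω → Prop} {i : ω} {U : Finset ω} {σ : ω → ℝ} (h : Inv adj i U σ) :
    Inv adj i U (fun o => - σ o) := by
  refine ⟨h.notin, fun a ha b hb hab => h.inj a ha b hb (neg_injective hab), fun k hk hki => ?_⟩
  obtain ⟨⟨a, ha, h1, h2⟩, ⟨b, hb, h3, h4⟩⟩ := h.prop k hk hki
  exact ⟨⟨b, hb, h3, neg_lt_neg h4⟩, ⟨a, ha, h1, neg_lt_neg h2⟩⟩

omit [Fintype ω] in
/-- a gap after the value at `u` -/
theorem gap (U : Finset ω) (σ : ω → ℝ) (u : ω) :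
    ∃ ε > 0, ∀ v ∈ U, σ u < σ v → σ u + ε ≤ σ v := by
  classical
  by_cases h : (U.filter fun v => σ u < σ v).Nonempty
  · obtain ⟨w, hw, hmin⟩ := Finset.exists_min_image _ (fun v => σ v - σ u) h
    refine ⟨σ w - σ u, sub_pos.2 (Finset.mem_filter.1 hw).2, fun v hv hlt => ?_⟩
    have := hmin v (Finset.mem_filter.2 ⟨hv, hlt⟩)
    linarith
  · refine ⟨1, one_pos, fun v hv hlt => ?_⟩
    exact absurd ⟨v, Finset.mem_filter.2 ⟨hv, hlt⟩⟩ h

/-- adding an ear above `u` -/
theorem addear {adj : ω → ω → Prop} (hs : ∀ o o', adj o o' → adj o' o) {i : ω} {U : Finset ω}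
    {σ : ω → ℝ} (h : Inv adj i U σ) (u : ω) (hu : u ∈ U) (n : ℕ) (f : ℕ → ω)
    (hf0 : adj u (f 0)) (hf : ∀ l ≤ n, f l ∉ U ∧ f l ≠ i)
    (hadj : ∀ l < n, adj (f l) (f (l + 1)))
    (hinj : ∀ a ≤ n, ∀ b ≤ n, f a = f b → a = b)
    (hend : adj (f n) i ∨ ∃ v ∈ U, adj (f n) v ∧ σ u < σ v) :
    ∃ U' : Finset ω, U.card < U'.card ∧ ∃ σ' : ω → ℝ, Inv adj i U' σ' := by
  classical
  obtain ⟨ε, hε, hgap⟩ := gap U σ u
  have hn : (0 : ℝ) < n + 2 := by positivity
  -- the positions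
  let pos : ℕ → ℝ := fun l => σ u + ε * ((l + 1) / (n + 2))
  have hpos_lt : ∀ a b : ℕ, a < b → pos a < pos b := by
    intro a b hab
    have : (a : ℝ) < b := by exact_mod_cast hab
    simp only [pos]
    gcongr
  have hpos_gt : ∀ a : ℕ, σ u < pos a := by
    intro a
    have : 0 < ε * (((a : ℝ) + 1) / (n + 2)) := by positivity
    simp only [pos]
    linarith
  have hpos_le : ∀ a ≤ n, pos a < σ u + ε := by
    intro a ha
    have ha' : (a : ℝ) ≤ n := by exact_mod_cast ha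
    have h1 : ((a : ℝ) + 1) / (n + 2) < 1 := by
      rw [div_lt_one hn]; linarith
    have : ε * (((a : ℝ) + 1) / (n + 2)) < ε * 1 := by gcongr
    simp only [pos]
    linarith
  let V : Finset ω := (Finset.range (n + 1)).image f
  have hV : ∀ v, v ∈ V ↔ ∃ l ≤ n, f l = v := by
    intro v
    simp only [V, Finset.mem_image, Finset.mem_range, Nat.lt_succ_iff]
  let σ' : ω → ℝ := fun v => if hv : ∃ l ≤ n, f l = v then pos hv.choose else σ v
  have hσU : ∀ v ∈ U, σ' v = σ v := by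
    intro v hv
    simp only [σ']
    rw [dif_neg]
    rintro ⟨l, hl, rfl⟩
    exact (hf l hl).1 hv
  have hσf : ∀ l ≤ n, σ' (f l) = pos l := by
    intro l hl
    have hex : ∃ l' ≤ n, f l' = f l := ⟨l, hl, rfl⟩
    simp only [σ']
    rw [dif_pos hex]
    congr 1
    exact hinj _ hex.choose_spec.1 _ hl hex.choose_spec.2
  refine ⟨U ∪ V, ?_, σ', ?_, ?_, ?_⟩
  · apply Finset.card_lt_card
    refine ⟨Finset.subset_union_left, fun hsub => ?_⟩
    exact (hf 0 (Nat.zero_le _)).1 (hsub (Finset.mem_union_right _ ((hV _).2 ⟨0, Nat.zero_le _, rfl⟩)))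
  · rw [Finset.mem_union, not_or]
    refine ⟨h.notin, fun hi => ?_⟩
    obtain ⟨l, hl, hli⟩ := (hV _).1 hi
    exact (hf l hl).2 hli
  · -- injectivity
    have key : ∀ a ∈ U, ∀ l ≤ n, σ' a ≠ σ' (f l) := by
      intro a ha l hl he
      rw [hσU a ha, hσf l hl] at he
      have h1 := hpos_gt l
      have h2 := hpos_le l hl
      rw [← he] at h1 h2
      have := hgap a ha h1
      linarith
    intro a ha b hb hab
    rcases Finset.mem_union.1 ha with ha | ha <;> rcases Finset.mem_union.1 hb with hb | hb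
    · rw [hσU a ha, hσU b hb] at hab
      exact h.inj a ha b hb hab
    · obtain ⟨l, hl, rfl⟩ := (hV _).1 hb
      exact absurd hab (key a ha l hl)
    · obtain ⟨l, hl, rfl⟩ := (hV _).1 ha
      exact absurd hab.symm (key b hb l hl)
    · obtain ⟨l, hl, rfl⟩ := (hV _).1 ha
      obtain ⟨l', hl', rfl⟩ := (hV _).1 hb
      rw [hσf l hl, hσf l' hl'] at hab
      rcases lt_trichotomy l l' with hlt | rfl | hlt
      · exact absurd hab (hpos_lt l l' hlt).ne
      · rfl
      · exact absurd hab (hpos_lt l' l hlt).ne'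
  · intro k hk hki
    rcases Finset.mem_union.1 hk with hk | hk
    · obtain ⟨⟨a, ha, h1, h2⟩, ⟨b, hb, h3, h4⟩⟩ := h.prop k hk hki
      refine ⟨⟨a, Finset.mem_union_left _ ha, h1, ?_⟩, ⟨b, Finset.mem_union_left _ hb, h3, ?_⟩⟩
      · rw [hσU a ha, hσU k hk]; exact h2
      · rw [hσU b hb, hσU k hk]; exact h4
    · obtain ⟨l, hl, rfl⟩ := (hV _).1 hk
      refine ⟨?_, ?_⟩
      · rcases Nat.eq_zero_or_pos l with rfl | hl0
        · refine ⟨u, Finset.mem_union_left _ hu, hs _ _ hf0, ?_⟩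
          rw [hσU u hu, hσf 0 hl]
          exact hpos_gt 0
        · obtain ⟨l, rfl⟩ := Nat.exists_eq_succ_of_ne_zero hl0.ne'
          refine ⟨f l, Finset.mem_union_right _ ((hV _).2 ⟨l, by omega, rfl⟩),
            hs _ _ (hadj l (by omega)), ?_⟩
          rw [hσf l (by omega), hσf _ hl]
          exact hpos_lt _ _ (Nat.lt_succ_self l)
      · rcases Nat.lt_or_ge l n with hln | hln
        · refine ⟨f (l + 1), Finset.mem_union_right _ ((hV _).2 ⟨l + 1, by omega, rfl⟩),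
            hadj l hln, ?_⟩
          rw [hσf l hl, hσf _ (by omega)]
          exact hpos_lt _ _ (Nat.lt_succ_self l)
        · have : l = n := le_antisymm hl hln
          subst this
          rcases hend with he | ⟨v, hv, he, hlt⟩
          · exact absurd he hki
          · refine ⟨v, Finset.mem_union_left _ hv, he, ?_⟩
            rw [hσf l hl, hσU v hv]
            exact lt_of_lt_of_le (hpos_le l hl) (hgap v hv hlt)

/-- existence of an injective ear -/
theorem ear {adj : ω → ω → Prop} (h2 : TwoConn adj) {i : ω} {U : Finset ω} (hi : i ∉ U)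
    (u x : ω) (hu : u ∈ U) (hx : x ∉ U) (hxi : x ≠ i) (hux : adj u x) :
    ∃ (n : ℕ) (f : ℕ → ω), adj u (f 0) ∧ (∀ l ≤ n, f l ∉ U ∧ f l ≠ i) ∧
      (∀ l < n, adj (f l) (f (l + 1))) ∧ (∀ a ≤ n, ∀ b ≤ n, f a = f b → a = b) ∧
      ∃ j, (j ∈ U ∨ j = i) ∧ j ≠ u ∧ adj (f n) j := by
  classical
  let P : ℕ → Prop := fun n => ∃ f : ℕ → ω, adj u (f 0) ∧ (∀ l ≤ n, f l ∉ U ∧ f l ≠ i) ∧
      (∀ l < n, adj (f l) (f (l + 1))) ∧ ∃ j, (j ∈ U ∨ j = i) ∧ j ≠ u ∧ adj (f n) j
  have hP : ∃ n, P n := by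
    let K : Finset ω := Finset.univ.filter fun w => ∃ (n : ℕ) (f : ℕ → ω), adj u (f 0) ∧
      (∀ l ≤ n, f l ∉ U ∧ f l ≠ i) ∧ (∀ l < n, adj (f l) (f (l + 1))) ∧ f n = w
    have hmK : ∀ w, w ∈ K ↔ ∃ (n : ℕ) (f : ℕ → ω), adj u (f 0) ∧
      (∀ l ≤ n, f l ∉ U ∧ f l ≠ i) ∧ (∀ l < n, adj (f l) (f (l + 1))) ∧ f n = w := by
      intro w; simp [K]
    have hKU : ∀ w ∈ K, w ∉ U ∧ w ≠ i := by
      intro w hw
      obtain ⟨n, f, -, h, -, rfl⟩ := (hmK w).1 hw
      exact h n le_rfl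
    have hxK : x ∈ K := (hmK x).2 ⟨0, fun _ => x, hux, fun _ _ => ⟨hx, hxi⟩,
      fun l hl => absurd hl (Nat.not_lt_zero l), rfl⟩
    obtain ⟨k, hk, j, hju, hjK, hkj⟩ := h2 u K (fun h => (hKU u h).1 hu) ⟨x, hxK⟩
      ⟨i, fun h => hi (h ▸ hu), fun h => (hKU i h).2 rfl⟩
    obtain ⟨n, f, h1, h3, h4, h5⟩ := (hmK k).1 hk
    refine ⟨n, f, h1, h3, h4, j, ?_, hju, h5 ▸ hkj⟩
    by_contra hj
    rw [not_or] at hj
    apply hjK
    refine (hmK j).2 ⟨n + 1, fun l => if l ≤ n then f l else j, ?_, ?_, ?_, ?_⟩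
    · simpa using h1
    · intro l _
      simp only
      split_ifs with hl
      · exact h3 l hl
      · exact hj
    · intro l hl
      simp only
      rw [if_pos (by omega : l ≤ n)]
      split_ifs with hl'
      · exact h4 l (by omega)
      · have : l = n := by omega
        rw [this, h5]
        exact hkj
    · simp
  obtain ⟨f, h1, h3, h4, h5⟩ := Nat.find_spec hP
  have hmin := fun m (hm : m < Nat.find hP) => Nat.find_min hP hm
  generalize Nat.find hP = n at *
  refine ⟨n, f, h1, h3, h4, ?_, h5⟩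
  -- shortcut
  have key : ∀ a b, a < b → b ≤ n → f a ≠ f b := by
    intro a b hab hbn he
    apply hmin (n - (b - a)) (by omega)
    refine ⟨fun l => if l ≤ a then f l else f (l + (b - a)), ?_, ?_, ?_, ?_⟩
    · simpa using h1
    · intro l hl
      simp only
      split_ifs with hla
      · exact h3 l (by omega)
      · exact h3 _ (by omega)
    · intro l hl
      simp only
      split_ifs with h6 h7 h7
      · exact h4 l (by omega)
      · have hla : l = a := by omega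
        subst hla
        rw [he, show l + 1 + (b - l) = b + 1 by omega]
        exact h4 b (by omega)
      · omega
      · rw [show l + 1 + (b - a) = l + (b - a) + 1 by omega]
        exact h4 _ (by omega)
    · simp only
      split_ifs with h6
      · have hb : b = n := by omega
        have ha : n - (b - a) = a := by omega
        rw [ha, he, hb]
        exact h5
      · rw [show n - (b - a) + (b - a) = n by omega]
        exact h5
  intro a ha b hb hab
  rcases lt_trichotomy a b with hlt | he | hlt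
  · exact absurd hab (key a b hlt hb)
  · exact he
  · exact absurd hab.symm (key b a hlt ha)

/-- the extension step -/
theorem step {adj : ω → ω → Prop} (hs : ∀ o o', adj o o' → adj o' o) (h2 : TwoConn adj) {i : ω}
    {U : Finset ω} (hU : U.Nonempty) {σ : ω → ℝ} (h : Inv adj i U σ) (hne : ∃ j, j ≠ i ∧ j ∉ U) :
    ∃ U' : Finset ω, U.card < U'.card ∧ ∃ σ' : ω → ℝ, Inv adj i U' σ' := by
  obtain ⟨u, hu, x, hxi, hxU, hux⟩ := h2 i U h.notin hU hne
  obtain ⟨n, f, h1, h3, h4, h5, j, hj, hju, hadj⟩ := ear h2 h.notin u x hu hxU hxi hux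
  rcases hj with hj | rfl
  · rcases lt_trichotomy (σ u) (σ j) with hlt | he | hlt
    · exact addear hs h u hu n f h1 h3 h4 h5 (Or.inr ⟨j, hj, hadj, hlt⟩)
    · exact absurd (h.inj u hu j hj he) (Ne.symm hju)
    · exact addear hs h.neg u hu n f h1 h3 h4 h5 (Or.inr ⟨j, hj, hadj, neg_lt_neg hlt⟩)
  · exact addear hs h u hu n f h1 h3 h4 h5 (Or.inl hadj)

theorem full {adj : ω → ω → Prop} (hs : ∀ o o', adj o o' → adj o' o)
    (hc : ∀ K : Finset ω, K.Nonempty → K ≠ Finset.univ → ∃ k ∈ K, ∃ j, j ∉ K ∧ adj k j)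
    (h2 : TwoConn adj) (hcard : 2 ≤ Fintype.card ω) (i : ω) :
    ∃ σ : ω → ℝ, ∃ U : Finset ω, Inv adj i U σ ∧ ∀ j, j ≠ i → j ∈ U := by
  classical
  -- the start
  obtain ⟨t, ht, hti⟩ : ∃ t, t ≠ i ∧ adj t i := by
    obtain ⟨k, hk, j, hj, hkj⟩ := hc {i} ⟨i, Finset.mem_singleton_self i⟩ (fun h => by
      have := congrArg Finset.card h
      rw [Finset.card_singleton, Finset.card_univ] at this
      omega)
    rw [Finset.mem_singleton] at hk hj
    subst hk
    exact ⟨j, hj, hs _ _ hkj⟩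
  have hstart : Inv adj i {t} (fun _ => (0 : ℝ)) := by
    refine ⟨fun h => ht (Finset.mem_singleton.1 h).symm, fun a ha b hb _ => ?_, fun k hk hki => ?_⟩
    · rw [Finset.mem_singleton.1 ha, Finset.mem_singleton.1 hb]
    · rw [Finset.mem_singleton.1 hk] at hki
      exact absurd hti hki
  let Q : Finset ω → Prop := fun U => U.Nonempty ∧ ∃ σ : ω → ℝ, Inv adj i U σ
  have hQ : (Finset.univ.filter Q).Nonempty :=
    ⟨{t}, Finset.mem_filter.2 ⟨Finset.mem_univ _, ⟨t, Finset.mem_singleton_self t⟩, _, hstart⟩⟩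
  obtain ⟨U, hU, hmax⟩ := Finset.exists_max_image _ Finset.card hQ
  obtain ⟨-, hUne, σ, hσ⟩ := Finset.mem_filter.1 hU
  refine ⟨σ, U, hσ, ?_⟩
  by_contra hne
  push Not at hne
  obtain ⟨U', hcard', σ', hσ'⟩ := step hs h2 hUne hσ hne
  have hU'ne : U'.Nonempty := Finset.card_pos.1 (lt_of_le_of_lt (Nat.zero_le _) hcard')
  have := hmax U' (Finset.mem_filter.2 ⟨Finset.mem_univ _, hU'ne, σ', hσ'⟩)
  omega

/-- Part K4. -/
theorem main : S_K4 := by
  classical
  intro ω _ adj hs hc h2 hcard i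
  obtain ⟨σ, U, hσ, hU⟩ := full hs hc h2 hcard i
  have hinj : ∀ a b, a ≠ i → b ≠ i → σ a = σ b → a = b := fun a b ha hb h =>
    hσ.inj a (hU a ha) b (hU b hb) h
  -- the rank
  let S : ω → Finset ω := fun o => Finset.univ.filter fun v => v ≠ i ∧ σ v < σ o
  let r : ω → ℤ := fun o => if o = i then -1 else ((S o).card : ℤ)
  have hr : ∀ a b, a ≠ i → b ≠ i → σ a < σ b → r a < r b := by
    intro a b ha hb hab
    simp only [r, if_neg ha, if_neg hb, Nat.cast_lt]
    apply Finset.card_lt_card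
    refine ⟨fun v hv => ?_, fun hsub => ?_⟩
    · simp only [S, Finset.mem_filter, Finset.mem_univ, true_and] at hv ⊢
      exact ⟨hv.1, hv.2.trans hab⟩
    · have : a ∈ S a := hsub (by simp [S, ha, hab])
      simp [S] at this
  have hri : ∀ o, o ≠ i → r i < r o := by
    intro o ho
    simp only [r, if_true, if_neg ho]
    have : (0 : ℤ) ≤ ((S o).card : ℤ) := Int.natCast_nonneg _
    omega
  refine ⟨r, ?_, hri, ?_⟩
  · intro a b hab
    by_cases ha : a = i
    · by_cases hb : b = i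
      · rw [ha, hb]
      · rw [ha] at hab
        exact absurd hab (hri b hb).ne
    · by_cases hb : b = i
      · rw [hb] at hab
        exact absurd hab (hri a ha).ne'
      · rcases lt_trichotomy (σ a) (σ b) with hlt | he | hlt
        · exact absurd hab (hr a b ha hb hlt).ne
        · exact hinj a b ha hb he
        · exact absurd hab (hr b a hb ha hlt).ne'
  · intro k hk hki
    obtain ⟨⟨a, ha, h1, h3⟩, ⟨b, hb, h4, h5⟩⟩ := hσ.prop k (hU k hk) hki
    have hai : a ≠ i := fun h => hσ.notin (h ▸ ha)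
    have hbi : b ≠ i := fun h => hσ.notin (h ▸ hb)
    exact ⟨⟨a, hai, h1, hr a k hai hk h3⟩, ⟨b, hbi, h4, hr k b hk hbi h5⟩⟩

end Pool.Agent.Helper27.SPX.K4
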