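import Mathlib
import Pool.Agent.Helper64.SPX.Spec3

/-!
Swarm SPX, part K5: a cut vertex gives an orthogonal product.
-/

namespace Pool.Agent.Helper27.SPX.K5

open Finset Pool.Agent.Helper64.SPX
open scoped InnerProductSpace

variable {ι ω : Type} [Fintype ι] [Fintype ω]

theorem li {b : ω → E ι} (hb : Obt b) (o : ω) :
    LinearIndependent ℝ (fun k : {k // k ≠ o} => b k) := by
  classical
  apply linearIndependent_of_top_le_span_of_card_eq_finrank
  · refine hb.span.trans (Submodule.span_le.2 ?_)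
    rintro _ ⟨k, rfl⟩
    by_cases hk : k = o
    · subst hk
      have h : b k = - ∑ j : {j // j ≠ k}, b j := by
        have h1 := hb.sum
        rw [← Finset.add_sum_erase _ _ (Finset.mem_univ k)] at h1
        rw [eq_neg_iff_add_eq_zero]
        rw [← h1]
        congr 1
        refine (Finset.sum_subtype _ (fun x => ?_) _).symm
        simp
      rw [h]
      refine Submodule.neg_mem _ (Submodule.sum_mem _ fun j _ => Submodule.subset_span ⟨j, rfl⟩)
    · exact Submodule.subset_span ⟨⟨k, hk⟩, rfl⟩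
  · have h1 := hb.card
    have h2 : Fintype.card {k // k ≠ o} = Fintype.card ω - 1 := by
      simp [Fintype.card_subtype_compl]
    rw [h2, h1, finrank_euclideanSpace]
    omega

theorem half {b : ω → E ι} (hb : Obt b) (o : ω) (K : Finset ω) (hoK : o ∉ K)
    (horth : ∀ k ∈ K, ∀ j, j ≠ o → j ∉ K → ⟪b k, b j⟫_ℝ = 0) :
    ∃ (b₁ : Option K → E K) (S : E K →ₗᵢ[ℝ] E ι), Obt b₁ ∧ (∀ k : K, S (b₁ (some k)) = b k) ∧
      b₁ none = - ∑ k, b₁ (some k) ∧
      ∀ x, S x ∈ Submodule.span ℝ (Set.range fun k : K => b k) := by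
  classical
  have hli : LinearIndependent ℝ (fun k : K => b k) :=
    (li hb o).comp (fun k : K => (⟨k.1, fun h => hoK (h ▸ k.2)⟩ : {k // k ≠ o}))
      (fun a c h => Subtype.ext (congrArg (fun z : {k // k ≠ o} => z.1) h))
  have hfr := finrank_span_eq_card hli
  let U := Submodule.span ℝ (Set.range fun k : K => b k)
  let e : OrthonormalBasis K ℝ U := (stdOrthonormalBasis ℝ U).reindex
    (Fintype.equivOfCardEq (by rw [Fintype.card_fin]; exact hfr))
  let S : E K →ₗᵢ[ℝ] E ι := U.subtypeₗᵢ.comp e.repr.symm.toLinearIsometry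
  let w : K → E K := fun k => e.repr ⟨b k, Submodule.subset_span ⟨k, rfl⟩⟩
  have hw : ∀ k, S (w k) = b k := by
    intro k
    simp [S, w]
  let b₁ : Option K → E K := fun q => q.elim (- ∑ k, w k) w
  have hsome : ∀ k, b₁ (some k) = w k := fun k => rfl
  have hnone : b₁ none = - ∑ k, w k := rfl
  have hSsum : S (∑ k, w k) = ∑ k ∈ K, b k := by
    rw [map_sum, ← Finset.sum_coe_sort K b]
    exact Finset.sum_congr rfl fun k _ => hw k
  have hso : ∀ k : K, ⟪b k, ∑ k ∈ K, b k⟫_ℝ = - ⟪b k, b o⟫_ℝ := by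
    intro k
    have h1 := hb.sum
    rw [← Finset.sum_add_sum_compl (insert o K) b, Finset.sum_insert hoK] at h1
    have h2 : ∑ k ∈ K, b k = - b o - ∑ j ∈ (insert o K)ᶜ, b j := by
      rw [eq_sub_iff_add_eq, eq_neg_iff_add_eq_zero, ← h1]; abel
    rw [h2, inner_sub_right, inner_neg_right, inner_sum]
    rw [Finset.sum_eq_zero fun j hj => ?_, sub_zero]
    rw [Finset.mem_compl, Finset.mem_insert, not_or] at hj
    exact horth k k.2 j hj.1 hj.2
  have hw2 : ∀ k k', ⟪w k, w k'⟫_ℝ = ⟪b k, b k'⟫_ℝ := by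
    intro k k'
    rw [← hw k, ← hw k', S.inner_map_map]
  have hkn : ∀ k : K, ⟪w k, - ∑ k, w k⟫_ℝ ≤ 0 := by
    intro k
    have h1 : ⟪w k, ∑ k, w k⟫_ℝ = ⟪b k, ∑ k ∈ K, b k⟫_ℝ := by
      rw [← hSsum, ← hw k, S.inner_map_map]
    rw [inner_neg_right, h1, hso, neg_neg]
    exact hb.obt _ _ fun h => hoK (h ▸ k.2)
  refine ⟨b₁, S, ⟨?_, ?_, ?_, ?_⟩, hw, rfl, ?_⟩
  · rw [Fintype.sum_option, hnone]
    simp [hsome]
  · simp
  · intro x _
    have hx : S x ∈ U := by simp [S]
    have key : ∀ y ∈ U, ∀ z, S z = y → z ∈ Submodule.span ℝ (Set.range b₁) := by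
      intro y hy
      refine Submodule.span_induction ?_ ?_ ?_ ?_ hy
      · rintro _ ⟨k, rfl⟩ z hz
        have : z = w k := S.injective (by rw [hz, hw])
        rw [this]
        exact Submodule.subset_span ⟨some k, rfl⟩
      · intro z hz
        have : z = 0 := S.injective (by rw [hz, map_zero])
        rw [this]; exact Submodule.zero_mem _
      · intro y1 y2 hy1 hy2 h1 h2 z hz
        have e1 : S (e.repr ⟨y1, hy1⟩) = y1 := by simp [S]
        have e2 : S (e.repr ⟨y2, hy2⟩) = y2 := by simp [S]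
        have : z = e.repr ⟨y1, hy1⟩ + e.repr ⟨y2, hy2⟩ := S.injective (by
          rw [hz, map_add, e1, e2])
        rw [this]
        exact Submodule.add_mem _ (h1 _ e1) (h2 _ e2)
      · intro a y1 hy1 h1 z hz
        have e1 : S (e.repr ⟨y1, hy1⟩) = y1 := by simp [S]
        have : z = a • e.repr ⟨y1, hy1⟩ := S.injective (by
          rw [hz, map_smul, e1])
        rw [this]
        exact Submodule.smul_mem _ _ (h1 _ e1)
    exact key _ hx x rfl
  · intro q q' hne
    rcases q with _ | k <;> rcases q' with _ | k'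
    · exact absurd rfl hne
    · rw [real_inner_comm]
      exact hkn k'
    · exact hkn k
    · rw [hsome, hsome, hw2]
      refine hb.obt _ _ fun h => hne ?_
      rw [Subtype.ext h]
  · intro x
    simp [S, U]

omit [Fintype ω] in
theorem sum_opt {K : Finset ω} {b₁ : Option K → E K} (h : b₁ none = - ∑ k, b₁ (some k))
    (c : Option K → ℤ) :
    ∑ q, (c q : ℝ) • b₁ q = ∑ k, ((c (some k) : ℝ) - c none) • b₁ (some k) := by
  rw [Fintype.sum_option, h]
  simp only [sub_smul, Finset.sum_sub_distrib, ← Finset.smul_sum, smul_neg]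
  abel

/-- first projection as a linear map -/
def fstL (α β : Type) : E (α ⊕ β) →ₗ[ℝ] E α where
  toFun := fst
  map_add' _ _ := rfl
  map_smul' _ _ := rfl

/-- second projection as a linear map -/
def sndL (α β : Type) : E (α ⊕ β) →ₗ[ℝ] E β where
  toFun := snd
  map_add' _ _ := rfl
  map_smul' _ _ := rfl

/-- Part K5. -/
theorem main : S_K5 := by
  classical
  intro ι ω _ _ b hb hT
  unfold TwoConn at hT
  push Not at hT
  obtain ⟨o, K, hoK, hKne, ⟨r, hro, hrK⟩, hadj⟩ := hT
  have horth : ∀ k ∈ K, ∀ j, j ≠ o → j ∉ K → ⟪b k, b j⟫_ℝ = 0 := by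
    intro k hk j hjo hjK
    have h1 := hadj k hk j hjo hjK
    have h2 := hb.obt k j fun h => hjK (h ▸ hk)
    exact le_antisymm h2 (not_lt.1 h1)
  let R : Finset ω := (insert o K)ᶜ
  have hR : ∀ j, j ∈ R ↔ j ≠ o ∧ j ∉ K := by
    intro j
    simp only [R, Finset.mem_compl, Finset.mem_insert, not_or]
  have hoR : o ∉ R := fun h => ((hR o).1 h).1 rfl
  have horth' : ∀ k ∈ R, ∀ j, j ≠ o → j ∉ R → ⟪b k, b j⟫_ℝ = 0 := by
    intro k hk j hjo hjR
    have hjK : j ∈ K := by
      by_contra hjK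
      exact hjR ((hR j).2 ⟨hjo, hjK⟩)
    rw [real_inner_comm]
    exact horth j hjK k ((hR k).1 hk).1 ((hR k).1 hk).2
  have hcard : K.card + R.card = Fintype.card ι := by
    have h1 := hb.card
    have h2 : R.card = Fintype.card ω - (K.card + 1) := by
      rw [Finset.card_compl, Finset.card_insert_of_notMem hoK]
    have h3 : K.card + 1 ≤ Fintype.card ω := by
      rw [← Finset.card_insert_of_notMem hoK]
      exact Finset.card_le_univ _
    omega
  obtain ⟨b₁, S₁, hb₁, hS₁, hn₁, hU₁⟩ := half hb o K hoK horth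
  obtain ⟨b₂, S₂, hb₂, hS₂, hn₂, hU₂⟩ := half hb o R hoR horth'
  have hort : ∀ x y, ⟪S₁ x, S₂ y⟫_ℝ = 0 := by
    intro x y
    have h1 : Submodule.span ℝ (Set.range fun k : K => b k) ⟂
        Submodule.span ℝ (Set.range fun k : R => b k) := by
      rw [Submodule.isOrtho_span]
      rintro _ ⟨k, rfl⟩ _ ⟨j, rfl⟩
      exact horth k k.2 j ((hR _).1 j.2).1 ((hR _).1 j.2).2
    exact Submodule.isOrtho_iff_inner_eq.1 h1 _ (hU₁ x) _ (hU₂ y)
  have hnorm : ∀ x y, ‖S₁ x + S₂ y‖ ^ 2 = ‖x‖ ^ 2 + ‖y‖ ^ 2 := by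
    intro x y
    rw [norm_add_sq_real, hort, S₁.norm_map, S₂.norm_map]; ring
  let f : E (K ⊕ R) →ₗ[ℝ] E ι :=
    S₁.toLinearMap.comp (fstL K R) + S₂.toLinearMap.comp (sndL K R)
  have hf : ∀ z, f z = S₁ (fst z) + S₂ (snd z) := fun z => rfl
  have hfinj : Function.Injective f := by
    rw [← LinearMap.ker_eq_bot, LinearMap.ker_eq_bot']
    intro z hz
    have h1 := hnorm (fst z) (snd z)
    rw [← hf, hz, norm_zero] at h1
    have h2 : ‖fst z‖ = 0 := by
      have := sq_nonneg ‖fst z‖; have := sq_nonneg ‖snd z‖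
      exact pow_eq_zero_iff (n := 2) (by norm_num) |>.1 (by nlinarith)
    have h3 : ‖snd z‖ = 0 := by
      have := sq_nonneg ‖fst z‖; have := sq_nonneg ‖snd z‖
      exact pow_eq_zero_iff (n := 2) (by norm_num) |>.1 (by nlinarith)
    rw [norm_eq_zero] at h2 h3
    ext q
    rcases q with q | q
    · exact congrArg (fun v : E K => v q) h2
    · exact congrArg (fun v : E R => v q) h3
  let T : E (K ⊕ R) ≃ₗ[ℝ] E ι := LinearEquiv.ofInjectiveOfFinrankEq f hfinj (by
    rw [finrank_euclideanSpace, finrank_euclideanSpace, Fintype.card_sum, Fintype.card_coe,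
      Fintype.card_coe, hcard])
  have hTf : ∀ z, T z = S₁ (fst z) + S₂ (snd z) := fun z => rfl
  -- lattice vectors
  have hlat : ∀ c : ω → ℤ, ∑ j, (c j : ℝ) • b j =
      S₁ (∑ k : K, ((c k : ℝ) - c o) • b₁ (some k)) +
        S₂ (∑ k : R, ((c k : ℝ) - c o) • b₂ (some k)) := by
    intro c
    have h1 : ∑ j, (c j : ℝ) • b j = ∑ j, ((c j : ℝ) - c o) • b j := by
      simp only [sub_smul, Finset.sum_sub_distrib, ← Finset.smul_sum, hb.sum, smul_zero, sub_zero]
    rw [h1, ← Finset.sum_add_sum_compl (insert o K), Finset.sum_insert hoK, sub_self, zero_smul,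
      zero_add, map_sum, map_sum]
    simp only [map_smul, hS₁, hS₂]
    congr 1
    · exact (Finset.sum_coe_sort K (fun k => ((c k : ℝ) - c o) • b k)).symm
    · exact (Finset.sum_coe_sort R (fun k => ((c k : ℝ) - c o) • b k)).symm
  have hdist : ∀ z (c : ω → ℤ), ‖T z - ∑ j, (c j : ℝ) • b j‖ ^ 2 =
      ‖fst z - ∑ k : K, ((c k : ℝ) - c o) • b₁ (some k)‖ ^ 2 +
        ‖snd z - ∑ k : R, ((c k : ℝ) - c o) • b₂ (some k)‖ ^ 2 := by
    intro z c
    rw [hTf, hlat, ← hnorm, map_sub, map_sub]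
    congr 2
    abel
  have hnT : ∀ z, ‖T z‖ ^ 2 = ‖fst z‖ ^ 2 + ‖snd z‖ ^ 2 := fun z => by rw [hTf, hnorm]
  refine ⟨K, R, Option K, Option R, inferInstance, inferInstance, inferInstance, inferInstance,
    b₁, b₂, T, hb₁, hb₂, ?_, ?_, ?_⟩
  · rw [Fintype.card_coe]
    have : 0 < R.card := Finset.card_pos.2 ⟨r, (hR r).2 ⟨hro, hrK⟩⟩
    omega
  · rw [Fintype.card_coe]
    have : 0 < K.card := Finset.card_pos.2 hKne
    omega
  · ext x
    constructor
    · rintro ⟨z, ⟨hz1, hz2⟩, rfl⟩ c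
      rw [← sq_le_sq₀ (norm_nonneg _) (norm_nonneg _), hnT, hdist]
      have h1 := hz1 (fun q => q.elim (c o) fun k => c k)
      have h2 := hz2 (fun q => q.elim (c o) fun k => c k)
      rw [sum_opt hn₁] at h1
      rw [sum_opt hn₂] at h2
      rw [← sq_le_sq₀ (norm_nonneg _) (norm_nonneg _)] at h1 h2
      exact add_le_add h1 h2
    · intro hx
      obtain ⟨z, rfl⟩ := T.surjective x
      refine ⟨z, ⟨?_, ?_⟩, rfl⟩
      · intro c
        have h1 := hx (fun j => if hj : j ∈ K then c (some ⟨j, hj⟩) else c none)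
        rw [← sq_le_sq₀ (norm_nonneg _) (norm_nonneg _), hnT, hdist] at h1
        rw [← sq_le_sq₀ (norm_nonneg _) (norm_nonneg _), sum_opt hn₁]
        have h2 : ∑ k : R, (((if hj : (k : ω) ∈ K then c (some ⟨k, hj⟩) else c none : ℤ) : ℝ)
            - (if hj : o ∈ K then c (some ⟨o, hj⟩) else c none : ℤ)) • b₂ (some k) = 0 := by
          refine Finset.sum_eq_zero fun k _ => ?_
          rw [dif_neg ((hR _).1 k.2).2, dif_neg hoK, sub_self, zero_smul]
        have h3 : ∑ k : K, (((if hj : (k : ω) ∈ K then c (some ⟨k, hj⟩) else c none : ℤ) : ℝ)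
            - (if hj : o ∈ K then c (some ⟨o, hj⟩) else c none : ℤ)) • b₁ (some k)
            = ∑ k : K, ((c (some k) : ℝ) - c none) • b₁ (some k) := by
          refine Finset.sum_congr rfl fun k _ => ?_
          rw [dif_pos k.2, dif_neg hoK]
        rw [h2, h3, sub_zero] at h1
        linarith
      · intro c
        have h1 := hx (fun j => if hj : j ∈ R then c (some ⟨j, hj⟩) else c none)
        rw [← sq_le_sq₀ (norm_nonneg _) (norm_nonneg _), hnT, hdist] at h1
        rw [← sq_le_sq₀ (norm_nonneg _) (norm_nonneg _), sum_opt hn₂]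
        have h2 : ∑ k : K, (((if hj : (k : ω) ∈ R then c (some ⟨k, hj⟩) else c none : ℤ) : ℝ)
            - (if hj : o ∈ R then c (some ⟨o, hj⟩) else c none : ℤ)) • b₁ (some k) = 0 := by
          refine Finset.sum_eq_zero fun k _ => ?_
          rw [dif_neg fun h => ((hR _).1 h).2 k.2, dif_neg hoR, sub_self, zero_smul]
        have h3 : ∑ k : R, (((if hj : (k : ω) ∈ R then c (some ⟨k, hj⟩) else c none : ℤ) : ℝ)
            - (if hj : o ∈ R then c (some ⟨o, hj⟩) else c none : ℤ)) • b₂ (some k)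
            = ∑ k : R, ((c (some k) : ℝ) - c none) • b₂ (some k) := by
          refine Finset.sum_congr rfl fun k _ => ?_
          rw [dif_pos k.2, dif_neg hoR]
        rw [h2, h3, sub_zero] at h1
        linarith

end Pool.Agent.Helper27.SPX.K5
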