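import Pool.Agent.Helper64.SPX.Spec

/-!
# Swarm SPX (MP_61fe1c_an), part MEAS: the limit measure
-/

set_option autoImplicit false

open MeasureTheory Filter Topology Set
open scoped InnerProductSpace ENNReal

namespace Pool.Agent.Helper27.SPX.MEAS

open Pool.Agent.Helper64.SPX

section

variable {ι κ : Type} [Fintype ι] [Fintype κ]

omit [Fintype ι] [Fintype κ] in
theorem continuous_fst' : Continuous (fst : E (ι ⊕ κ) → E ι) := by
  unfold fst
  exact (PiLp.continuous_toLp 2 _).comp
    (continuous_pi fun i => (continuous_apply (Sum.inl i)).comp (PiLp.continuous_ofLp 2 _))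

omit [Fintype ι] [Fintype κ] in
theorem continuous_snd' : Continuous (snd : E (ι ⊕ κ) → E κ) := by
  unfold snd
  exact (PiLp.continuous_toLp 2 _).comp
    (continuous_pi fun i => (continuous_apply (Sum.inr i)).comp (PiLp.continuous_ofLp 2 _))

omit [Fintype ι] [Fintype κ] in
theorem continuous_pair : Continuous (fun p : E ι × E κ => pair p.1 p.2) := by
  unfold pair
  refine (PiLp.continuous_toLp 2 _).comp (continuous_pi fun i => ?_)
  rcases i with i | i
  · exact (continuous_apply i).comp ((PiLp.continuous_ofLp 2 _).comp continuous_fst)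
  · exact (continuous_apply i).comp ((PiLp.continuous_ofLp 2 _).comp continuous_snd)

omit [Fintype ι] [Fintype κ] in
theorem pair_fst_snd (z : E (ι ⊕ κ)) : pair (fst z) (snd z) = z := by
  unfold pair fst snd
  ext i
  rcases i with i | i <;> rfl

omit [Fintype ι] [Fintype κ] in
theorem fst_zero : fst (0 : E (ι ⊕ κ)) = 0 := by
  unfold fst
  ext i
  rfl

omit [Fintype ι] [Fintype κ] in
theorem snd_zero : snd (0 : E (ι ⊕ κ)) = 0 := by
  unfold snd
  ext i
  rfl

theorem continuous_P (S : Finset (E ι)) : Continuous (P S) := by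
  unfold P ee
  refine continuous_finsetSum _ fun a _ => ?_
  exact Complex.continuous_exp.comp ((continuous_const.mul (Complex.continuous_ofReal.comp
    (continuous_const.inner continuous_id))).mul continuous_const)

theorem prodSet_measurable {A : Set (E ι)} {B : Set (E κ)} (hA : MeasurableSet A)
    (hB : MeasurableSet B) : MeasurableSet (prodSet A B) :=
  (continuous_fst'.measurable hA).inter (continuous_snd'.measurable hB)

theorem prodSet_bounded {A : Set (E ι)} {B : Set (E κ)} (hA : Bornology.IsBounded A)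
    (hB : Bornology.IsBounded B) : Bornology.IsBounded (prodSet A B) := by
  obtain ⟨r1, h1⟩ := hA.exists_norm_le
  obtain ⟨r2, h2⟩ := hB.exists_norm_le
  have hK : IsCompact ((fun p : E ι × E κ => pair p.1 p.2) ''
      (Metric.closedBall 0 r1 ×ˢ Metric.closedBall 0 r2)) :=
    ((isCompact_closedBall _ _).prod (isCompact_closedBall _ _)).image continuous_pair
  refine hK.isBounded.subset ?_
  intro z hz
  refine ⟨(fst z, snd z), ⟨?_, ?_⟩, pair_fst_snd z⟩
  · exact mem_closedBall_zero_iff.2 (h1 _ hz.1)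
  · exact mem_closedBall_zero_iff.2 (h2 _ hz.2)

theorem prodSet_volume (hSp : S_SPLIT) {A : Set (E ι)} {B : Set (E κ)} (hA : MeasurableSet A)
    (hB : MeasurableSet B) : volume (prodSet A B) = volume A * volume B := by
  obtain ⟨e, he, _, hmp⟩ := hSp ι κ
  have h1 : prodSet A B = e ⁻¹' (A ×ˢ B) := by
    ext z
    rw [mem_preimage, he]
    exact Iff.rfl
  rw [h1, hmp.measure_preimage (hA.prod hB).nullMeasurableSet, Measure.prod_prod]

/-- the density -/
noncomputable def dens (B : Set (E κ)) (S : Finset (E (ι ⊕ κ))) (τ : E (ι ⊕ κ)) : ℝ≥0∞ :=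
  ENNReal.ofReal (wt B (snd τ) * ‖P S τ‖ ^ 2)

theorem dens_measurable {B : Set (E κ)} (hB : Continuous (wt B)) (S : Finset (E (ι ⊕ κ))) :
    Measurable (dens (ι := ι) B S) := by
  unfold dens
  exact (ENNReal.continuous_ofReal.comp ((hB.comp continuous_snd').mul
    ((continuous_P S).norm.pow 2))).measurable

/-- the approximating measures -/
noncomputable def mu (B : Set (E κ)) (S : ℕ → Finset (E (ι ⊕ κ))) (k : ℕ) : Measure (E ι) :=
  (ENNReal.ofReal (1 / q (ι ⊕ κ) k)) • ((volume.withDensity (dens B (S k))).map fst)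

theorem mu_apply (B : Set (E κ)) (S : ℕ → Finset (E (ι ⊕ κ))) (k : ℕ)
    {U : Set (E ι)} (hU : MeasurableSet U) :
    mu B S k U = ENNReal.ofReal (1 / q (ι ⊕ κ) k) * ∫⁻ τ in fst ⁻¹' U, dens B (S k) τ := by
  unfold mu
  rw [Measure.smul_apply, Measure.map_apply continuous_fst'.measurable hU,
    withDensity_apply _ (continuous_fst'.measurable hU), smul_eq_mul]

theorem integral_mu {B : Set (E κ)} (hB : Continuous (wt B)) (hB0 : ∀ s, 0 ≤ wt B s)
    (S : ℕ → Finset (E (ι ⊕ κ))) (k : ℕ) {f : E ι → ℝ} (hf : Continuous f) :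
    ∫ t, f t ∂(mu B S k) = (1 / q (ι ⊕ κ) k) *
      ∫ τ, f (fst τ) * wt B (snd τ) * ‖P (S k) τ‖ ^ 2 := by
  unfold mu
  rw [integral_smul_measure, integral_map continuous_fst'.measurable.aemeasurable
    hf.aestronglyMeasurable, integral_withDensity_eq_integral_toReal_smul
    (dens_measurable hB (S k)) (Eventually.of_forall fun _ => ENNReal.ofReal_lt_top)]
  have hq : 0 ≤ 1 / q (ι ⊕ κ) k := by unfold q; positivity
  rw [ENNReal.toReal_ofReal hq, smul_eq_mul]
  congr 1
  refine integral_congr_ae (Eventually.of_forall fun τ => ?_)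
  simp only [dens, smul_eq_mul]
  rw [ENNReal.toReal_ofReal (mul_nonneg (hB0 _) (by positivity))]
  ring

/-- Tonelli: the mass of a ball -/
theorem ball_bound {A : Set (E ι)} (hA : IsCompact A) {rA : ℝ} (hrA : ∀ a ∈ A, ‖a‖ ≤ rA)
    {W : E (ι ⊕ κ) → ℝ≥0∞} (hW : Measurable W) {K : ℝ≥0∞}
    (hK : ∀ x : E ι, ∫⁻ τ in {τ | x - fst τ ∈ A}, W τ = K) (ρ : ℝ) :
    volume A * ∫⁻ τ in fst ⁻¹' (Metric.closedBall (0 : E ι) ρ), W τ ≤
      K * volume (Metric.closedBall (0 : E ι) (ρ + rA)) := by
  have hAm := hA.measurableSet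
  set R := ρ + rA with hR
  let T : Set (E ι × E (ι ⊕ κ)) := {p | p.1 ∈ Metric.closedBall (0 : E ι) R ∧ p.1 - fst p.2 ∈ A}
  have hT : MeasurableSet T := by
    refine (measurable_fst Metric.isClosed_closedBall.measurableSet).inter ?_
    exact (measurable_fst.sub (continuous_fst'.measurable.comp measurable_snd)) hAm
  have h1 : ∫⁻ x : E ι, ∫⁻ τ : E (ι ⊕ κ), T.indicator (fun p => W p.2) (x, τ) =
      K * volume (Metric.closedBall (0 : E ι) R) := by
    have h2 : ∀ x : E ι, ∫⁻ τ : E (ι ⊕ κ), T.indicator (fun p => W p.2) (x, τ) =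
        (Metric.closedBall (0 : E ι) R).indicator (fun _ => K) x := by
      intro x
      have hm : MeasurableSet {τ : E (ι ⊕ κ) | x - fst τ ∈ A} :=
        (measurable_const.sub continuous_fst'.measurable) hAm
      by_cases hx : x ∈ Metric.closedBall (0 : E ι) R
      · rw [indicator_of_mem hx, ← hK x, ← lintegral_indicator hm]
        refine lintegral_congr fun τ => ?_
        by_cases hτ : x - fst τ ∈ A
        · rw [indicator_of_mem (show (x, τ) ∈ T from ⟨hx, hτ⟩),
            indicator_of_mem (show τ ∈ {τ : E (ι ⊕ κ) | x - fst τ ∈ A} from hτ)]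
        · rw [indicator_of_notMem (show (x, τ) ∉ T from fun h => hτ h.2),
            indicator_of_notMem (show τ ∉ {τ : E (ι ⊕ κ) | x - fst τ ∈ A} from hτ)]
      · rw [indicator_of_notMem hx]
        refine (lintegral_congr fun τ => ?_).trans lintegral_zero
        exact indicator_of_notMem (show (x, τ) ∉ T from fun h => hx h.1) _
    rw [lintegral_congr h2, lintegral_indicator Metric.isClosed_closedBall.measurableSet,
      setLIntegral_const]
  have h3 : ∫⁻ x : E ι, ∫⁻ τ : E (ι ⊕ κ), T.indicator (fun p => W p.2) (x, τ) =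
      ∫⁻ τ : E (ι ⊕ κ), ∫⁻ x : E ι, T.indicator (fun p => W p.2) (x, τ) :=
    lintegral_lintegral_swap ((hW.comp measurable_snd).indicator hT).aemeasurable
  rw [← h1, h3, ← lintegral_const_mul _ hW, ← lintegral_indicator
    (continuous_fst'.measurable Metric.isClosed_closedBall.measurableSet)]
  refine lintegral_mono fun τ => ?_
  by_cases hτ : τ ∈ fst ⁻¹' (Metric.closedBall (0 : E ι) ρ)
  · rw [indicator_of_mem hτ]
    have hτ' : ‖fst τ‖ ≤ ρ := mem_closedBall_zero_iff.1 hτ
    have hm : MeasurableSet {x : E ι | x - fst τ ∈ A} := (measurable_id.sub_const (fst τ)) hAm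
    have h4 : ∀ x : E ι, T.indicator (fun p => W p.2) (x, τ) =
        {x : E ι | x - fst τ ∈ A}.indicator (fun _ => W τ) x := by
      intro x
      by_cases hx : x - fst τ ∈ A
      · have hxR : x ∈ Metric.closedBall (0 : E ι) R := by
          rw [mem_closedBall_zero_iff]
          calc ‖x‖ = ‖fst τ + (x - fst τ)‖ := by congr 1; abel
            _ ≤ ‖fst τ‖ + ‖x - fst τ‖ := norm_add_le _ _
            _ ≤ ρ + rA := add_le_add hτ' (hrA _ hx)
        rw [indicator_of_mem (show (x, τ) ∈ T from ⟨hxR, hx⟩),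
          indicator_of_mem (show x ∈ {x : E ι | x - fst τ ∈ A} from hx)]
      · rw [indicator_of_notMem (show (x, τ) ∉ T from fun h => hx h.2),
          indicator_of_notMem (show x ∉ {x : E ι | x - fst τ ∈ A} from hx)]
    rw [lintegral_congr h4, lintegral_indicator hm, setLIntegral_const]
    have h5 : volume {x : E ι | x - fst τ ∈ A} = volume A := by
      have : {x : E ι | x - fst τ ∈ A} = (fun x => x + (-fst τ)) ⁻¹' A := by
        ext x
        rw [mem_preimage, ← sub_eq_add_neg]
        exact Iff.rfl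
      rw [this, measure_preimage_add_right]
    rw [h5, mul_comm]
  · rw [indicator_of_notMem hτ]
    exact zero_le

end

/-- the mass at the origin -/
theorem mass_zero {ι : Type} [Fintype ι] (ν : Measure (E ι)) [IsLocallyFiniteMeasure ν] (D2 : ℝ)
    (h : ∀ φ : E ι → ℝ, Continuous φ → HasCompactSupport φ → (∀ t, 0 ≤ φ t) → φ 0 = 1 →
      D2 ≤ ∫ t, φ t ∂ν) : ENNReal.ofReal D2 ≤ ν {0} := by
  by_contra hcon
  push Not at hcon
  obtain ⟨U, hU0, hUo, hU⟩ := Set.exists_isOpen_lt_of_lt ({0} : Set (E ι)) _ hcon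
  have h0U : (0 : E ι) ∈ U := hU0 rfl
  obtain ⟨r, hr, hball⟩ := Metric.isOpen_iff.1 hUo 0 h0U
  have hUfin : ν U < ⊤ := hU.trans_le le_top
  let φ : E ι → ℝ := fun t => max 0 (1 - (2 / r) * ‖t‖)
  have hφc : Continuous φ := by
    refine continuous_const.max ?_
    exact continuous_const.sub (continuous_const.mul continuous_norm)
  have hφs : ∀ t, φ t ≠ 0 → t ∈ Metric.closedBall (0 : E ι) (r / 2) := by
    intro t ht
    by_contra hc
    apply ht
    rw [mem_closedBall_zero_iff, not_le] at hc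
    have : 1 < 2 / r * ‖t‖ := by
      rw [div_mul_eq_mul_div, lt_div_iff₀ hr]
      linarith
    exact max_eq_left (by linarith)
  have hφcs : HasCompactSupport φ :=
    HasCompactSupport.of_support_subset_isCompact (isCompact_closedBall (0 : E ι) (r / 2))
      fun t ht => hφs t ht
  have hφ1 : φ 0 = 1 := by simp [φ]
  have hφ0 : ∀ t, 0 ≤ φ t := fun t => le_max_left _ _
  have h1 := h φ hφc hφcs hφ0 hφ1
  have h2 : ∫ t, φ t ∂ν ≤ (ν U).toReal := by
    have h3 : ∫ t, φ t ∂ν ≤ ∫ t, U.indicator (fun _ => (1 : ℝ)) t ∂ν := by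
      refine integral_mono_of_nonneg (Eventually.of_forall hφ0) ?_ (Eventually.of_forall ?_)
      · rw [integrable_indicator_iff hUo.measurableSet]
        exact integrableOn_const (hs := hUfin.ne) (hC := by simp)
      · intro t
        by_cases ht : φ t = 0
        · show φ t ≤ _
          rw [ht]
          exact indicator_nonneg (fun _ _ => zero_le_one) t
        · have htU : t ∈ U := by
            refine hball ?_
            have := mem_closedBall_zero_iff.1 (hφs t ht)
            rw [mem_ball_zero_iff]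
            linarith
          show φ t ≤ _
          rw [indicator_of_mem htU]
          refine max_le zero_le_one ?_
          have : 0 ≤ 2 / r * ‖t‖ := by positivity
          linarith
    rw [integral_indicator hUo.measurableSet, setIntegral_const, smul_eq_mul, mul_one] at h3
    exact h3
  have h4 : ENNReal.ofReal D2 ≤ ν U := by
    rw [← ENNReal.ofReal_toReal hUfin.ne]
    exact ENNReal.ofReal_le_ofReal (h1.trans h2)
  exact absurd hU (not_lt.2 h4)

/-- Part MEAS. -/
theorem main (hCOUNT : S_COUNT) (hDENS : S_DENS) (hT1 : S_T1) (hLIM : S_LIM) (hT3 : S_T3)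
    (hT4 : S_T4) (hWC : S_WC) (hPARS : S_PARS) (hSPLIT : S_SPLIT) : S_MEAS := by
  intro ι κ _ _ A B Λ r S hA hA0 hBm hBb hB0 hspec hr hsep hS
  obtain ⟨hwc, hwcs, hw, hw0⟩ := hWC κ B hBm hBb hB0
  have hAm := hA.measurableSet
  have hΩm : MeasurableSet (prodSet A B) := prodSet_measurable hAm hBm
  have hΩb : Bornology.IsBounded (prodSet A B) := prodSet_bounded hA.isBounded hBb
  have hΩv : volume (prodSet A B) = volume A * volume B := prodSet_volume hSPLIT hAm hBm
  have hΩ0 : 0 < volume (prodSet A B) := by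
    rw [hΩv]
    exact pos_iff_ne_zero.2 (mul_ne_zero hA0.ne' hB0.ne')
  have hΩtop : volume (prodSet A B) ≠ ⊤ := hΩb.measure_lt_top.ne
  set V := (volume (prodSet A B)).toReal with hV
  have hVpos : 0 < V := ENNReal.toReal_pos hΩ0.ne' hΩtop
  have hpars : ParsAll Λ (prodSet A B) := (hPARS (ι ⊕ κ) _ Λ hΩm hΩb hΩ0).1 hspec
  obtain ⟨rA, hrA⟩ := hA.isBounded.exists_norm_le
  -- the counting functions
  set d : ℕ → ℝ := fun k => ((S k).card : ℝ) / q (ι ⊕ κ) k with hd
  have hq0 : ∀ R : ℝ, 0 ≤ q (ι ⊕ κ) R := fun R => by unfold q; positivity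
  have hqpos : ∀ R : ℝ, 0 < R → 0 < q (ι ⊕ κ) R := by
    intro R hR
    unfold q
    exact ENNReal.toReal_pos (Metric.measure_closedBall_pos volume _ hR).ne'
      (measure_closedBall_lt_top).ne
  have hd0 : ∀ k, 0 ≤ d k := fun k => div_nonneg (Nat.cast_nonneg _) (hq0 _)
  obtain ⟨_, C, hC⟩ := hCOUNT (ι ⊕ κ) Λ r hr hsep
  have hdle : ∀ k, d k ≤ max C (d 0) := by
    intro k
    rcases Nat.eq_zero_or_pos k with rfl | hk
    · exact le_max_right _ _
    · refine le_trans ?_ (le_max_left _ _)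
      have h1 : (1 : ℝ) ≤ k := by exact_mod_cast hk
      have h2 := hC k h1 (S k) (hS k)
      rw [hd]
      exact (div_le_iff₀ (hqpos k (by linarith))).2 h2
  obtain ⟨D, hDmem, hD⟩ := (isCompact_Icc (a := (0 : ℝ)) (b := max C (d 0))).ultrafilter_le_nhds
    ((hyperfilter ℕ).map d) (by
      rw [le_principal_iff]
      exact mem_map.2 (univ_mem' fun k => ⟨hd0 k, hdle k⟩))
  have hDt : Tendsto d (hyperfilter ℕ : Filter ℕ) (𝓝 D) := hD
  have hc : Tendsto (fun k => V * d k) (hyperfilter ℕ : Filter ℕ) (𝓝 (V * D)) :=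
    hDt.const_mul V
  -- the tiling identity
  have hSΛ : ∀ k, ((S k : Finset (E (ι ⊕ κ))) : Set (E (ι ⊕ κ))) ⊆ Λ := fun k => by
    rw [hS k]; exact inter_subset_left
  have htile0 : ∀ k (x : E ι), ∫⁻ τ in {τ | x - fst τ ∈ A}, dens B (S k) τ =
      volume (prodSet A B) * (S k).card := fun k x =>
    hT1 ι κ A B Λ hA hBm hBb hB0 hspec (S k) (hSΛ k) x
  have hcoef : ∀ k : ℕ, ENNReal.ofReal (1 / q (ι ⊕ κ) k) * (volume (prodSet A B) * (S k).card) =
      ENNReal.ofReal (V * d k) := by
    intro k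
    rw [← ENNReal.ofReal_toReal hΩtop, ← hV, ← ENNReal.ofReal_natCast (S k).card,
      ← ENNReal.ofReal_mul hVpos.le, ← ENNReal.ofReal_mul (by have := hq0 k; positivity)]
    congr 1
    rw [hd]
    ring
  have htile : ∀ k (x : E ι), mu B S k {t | x - t ∈ A} = ENNReal.ofReal (V * d k) := by
    intro k x
    have hm : MeasurableSet {t : E ι | x - t ∈ A} := (measurable_const.sub measurable_id) hAm
    rw [mu_apply B S k hm, ← hcoef k]
    congr 1
    exact htile0 k x
  -- balls
  have hball : ∀ ρ : ℝ, ∃ C : ℝ≥0∞, C < ⊤ ∧ ∀ k, mu B S k (Metric.closedBall 0 ρ) ≤ C := by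
    intro ρ
    refine ⟨ENNReal.ofReal (V * max C (d 0)) * volume (Metric.closedBall (0 : E ι) (ρ + rA)) /
      volume A, ?_, ?_⟩
    · refine ENNReal.div_lt_top ?_ hA0.ne'
      exact (ENNReal.mul_lt_top ENNReal.ofReal_lt_top measure_closedBall_lt_top).ne
    · intro k
      rw [ENNReal.le_div_iff_mul_le (Or.inl hA0.ne') (Or.inl hA.measure_lt_top.ne)]
      rw [mu_apply B S k Metric.isClosed_closedBall.measurableSet]
      have h1 := ball_bound hA hrA (dens_measurable (ι := ι) hwc (S k)) (htile0 k) ρ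
      calc ENNReal.ofReal (1 / q (ι ⊕ κ) k) *
            (∫⁻ τ in fst ⁻¹' Metric.closedBall (0 : E ι) ρ, dens B (S k) τ) * volume A
          = ENNReal.ofReal (1 / q (ι ⊕ κ) k) * (volume A *
            ∫⁻ τ in fst ⁻¹' Metric.closedBall (0 : E ι) ρ, dens B (S k) τ) := by ring
        _ ≤ ENNReal.ofReal (1 / q (ι ⊕ κ) k) * (volume (prodSet A B) * (S k).card *
            volume (Metric.closedBall (0 : E ι) (ρ + rA))) := by gcongr
        _ = ENNReal.ofReal (V * d k) * volume (Metric.closedBall (0 : E ι) (ρ + rA)) := by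
            rw [← hcoef k]; ring
        _ ≤ ENNReal.ofReal (V * max C (d 0)) *
            volume (Metric.closedBall (0 : E ι) (ρ + rA)) := by
            gcongr
            exact hdle k
  obtain ⟨ν, hν, hνlim⟩ := hLIM ι (mu B S) hball
  have hlf : ∀ k, IsLocallyFiniteMeasure (mu B S k) := by
    intro k
    refine ⟨fun x => ⟨Metric.closedBall 0 (‖x‖ + 1), ?_, ?_⟩⟩
    · refine mem_of_superset (Metric.ball_mem_nhds x one_pos) ?_
      intro y hy
      rw [mem_closedBall_zero_iff]
      rw [mem_ball_iff_norm] at hy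
      calc ‖y‖ = ‖x + (y - x)‖ := by congr 1; abel
        _ ≤ ‖x‖ + ‖y - x‖ := norm_add_le _ _
        _ ≤ ‖x‖ + 1 := by linarith
    · obtain ⟨C', hC', hC''⟩ := hball (‖x‖ + 1)
      exact (hC'' k).trans_lt hC'
  have hae := hT3 ι A (mu B S) ν (fun k => V * d k) (V * D) hA hlf hν
    (fun k => mul_nonneg hVpos.le (hd0 k)) htile hc hνlim
  have hlim : ∀ f : E ι → ℝ, Continuous f → HasCompactSupport f →
      Tendsto (fun k : ℕ => (1 / q (ι ⊕ κ) k) *
        ∫ τ, f (fst τ) * wt B (snd τ) * ‖P (S k) τ‖ ^ 2) (hyperfilter ℕ : Filter ℕ)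
        (𝓝 (∫ t, f t ∂ν)) := by
    intro f hf hfs
    have h1 := hνlim f hf hfs
    refine h1.congr fun k => ?_
    exact integral_mu hwc (fun s => (hw s).1) S k hf
  -- lower density
  have hDV : V ≤ D := by
    refine le_of_forall_pos_le_add fun ε hε => ?_
    obtain ⟨R0, hR0⟩ := hDENS (ι ⊕ κ) (prodSet A B) Λ hΩm hΩb hΩ0 hpars r hr hsep ε hε
    have h1 : ∀ᶠ k in (hyperfilter ℕ : Filter ℕ), V - ε ≤ d k := by
      have h2 : ∀ᶠ k : ℕ in atTop, V - ε ≤ d k := by
        filter_upwards [eventually_ge_atTop (max 1 ⌈R0⌉₊)] with k hk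
        have hk1 : (1 : ℝ) ≤ k := by exact_mod_cast le_trans (le_max_left _ _) hk
        have hk2 : R0 ≤ k := (Nat.le_ceil R0).trans (by exact_mod_cast le_trans (le_max_right _ _) hk)
        have h3 := hR0 k hk2 (S k) (hS k)
        rw [hd]
        exact (le_div_iff₀ (hqpos k (by linarith))).2 h3
      exact (Nat.hyperfilter_le_atTop) h2
    have := ge_of_tendsto hDt h1
    linarith
  have hDpos : 0 < D := hVpos.trans_le hDV
  refine ⟨ν, V * D, mul_pos hVpos hDpos, hν, hae, ?_, hlim⟩
  have hmass : ENNReal.ofReal (D ^ 2) ≤ ν {0} := by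
    refine mass_zero ν (D ^ 2) ?_
    intro φ hφ hφs hφ0 hφ1
    have h1 := hT4 (ι ⊕ κ) S D (∫ t, φ t ∂ν) (fun τ => φ (fst τ) * wt B (snd τ)) (by
      intro k a ha
      have : a ∈ Λ ∩ Metric.closedBall 0 (k : ℝ) := by
        rw [← hS k]; exact Finset.mem_coe.2 ha
      exact mem_closedBall_zero_iff.1 this.2) hDt
      ((hφ.comp continuous_fst').mul (hwc.comp continuous_snd')) (by
        refine HasCompactSupport.of_support_subset_isCompact
          (K := (fun p : E ι × E κ => pair p.1 p.2) '' (tsupport φ ×ˢ tsupport (wt B)))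
          ((hφs.isCompact.prod hwcs.isCompact).image continuous_pair) ?_
        intro τ hτ
        rw [Function.mem_support] at hτ
        refine ⟨(fst τ, snd τ), ⟨subset_tsupport _ ?_, subset_tsupport _ ?_⟩, pair_fst_snd τ⟩
        · exact left_ne_zero_of_mul hτ
        · exact right_ne_zero_of_mul hτ)
      (fun τ => mul_nonneg (hφ0 _) (hw _).1) (hlim φ hφ hφs)
    simp only [fst_zero, snd_zero, hφ1, hw0, mul_one] at h1
    exact h1
  refine le_trans (ENNReal.ofReal_le_ofReal ?_) hmass
  nlinarith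

end Pool.Agent.Helper27.SPX.MEAS
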