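import Pool.Agent.Helper64.SPX.Spec

/-!
# Swarm SPX (MP_61fe1c_an), part WC: the weight
-/

set_option autoImplicit false

open MeasureTheory Filter Topology Set
open scoped InnerProductSpace ENNReal

namespace Pool.Agent.Helper27.SPX.WC

open Pool.Agent.Helper64.SPX

section

variable {κ : Type} [Fintype κ]

theorem vol_lt_top {B : Set (E κ)} (hb : Bornology.IsBounded B) : volume B < ⊤ := hb.measure_lt_top

/-- the correlation with a function -/
noncomputable def cor (B : Set (E κ)) (g : E κ → ℝ) (s : E κ) : ℝ :=
  ∫ y in B, g (y - s)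

theorem cor_continuous {B : Set (E κ)} (hb : Bornology.IsBounded B)
    {g : E κ → ℝ} (hg : Continuous g) (hgs : HasCompactSupport g) : Continuous (cor B g) := by
  obtain ⟨C, hC⟩ := hgs.exists_bound_of_continuous hg
  unfold cor
  have : IsFiniteMeasure (volume.restrict B) := ⟨by
    rw [Measure.restrict_apply_univ]; exact vol_lt_top hb⟩
  refine continuous_of_dominated (bound := fun _ => C) ?_ ?_ ?_ ?_
  · intro s
    exact (hg.comp (continuous_id.sub continuous_const)).aestronglyMeasurable
  · intro s
    exact Eventually.of_forall fun y => hC _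
  · exact integrable_const C
  · exact Eventually.of_forall fun y => hg.comp (continuous_const.sub continuous_id)

theorem int_eq {B : Set (E κ)} (hm : MeasurableSet B) (s : E κ) :
    (volume (B ∩ {y | y - s ∈ B})).toReal = cor B (B.indicator fun _ => (1 : ℝ)) s := by
  unfold cor
  have h1 : MeasurableSet {y : E κ | y - s ∈ B} := (measurable_id.sub_const s) hm
  have h2 : (fun y : E κ => B.indicator (fun _ => (1 : ℝ)) (y - s)) =
      {y : E κ | y - s ∈ B}.indicator 1 := by
    funext y
    by_cases hy : y - s ∈ B
    · rw [indicator_of_mem hy, indicator_of_mem (show y ∈ {y : E κ | y - s ∈ B} from hy)]; rfl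
    · rw [indicator_of_notMem hy, indicator_of_notMem (show y ∉ {y : E κ | y - s ∈ B} from hy)]
  rw [h2, integral_indicator_one h1, measureReal_def, Measure.restrict_apply h1, inter_comm]

theorem wt_continuous {B : Set (E κ)} (hm : MeasurableSet B) (hb : Bornology.IsBounded B) :
    Continuous (wt B) := by
  have h0 : Continuous (cor B (B.indicator fun _ => (1 : ℝ))) := by
    have hint : Integrable (B.indicator fun _ => (1 : ℝ)) (volume : Measure (E κ)) := by
      rw [integrable_indicator_iff hm]
      exact integrableOn_const (hs := (vol_lt_top hb).ne) (hC := by simp)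
    refine continuous_of_uniform_approx_of_continuous ?_
    intro u hu
    obtain ⟨ε, hε, hεu⟩ := Metric.mem_uniformity_dist.1 hu
    obtain ⟨g, hgs, hgd, hgc, hgi⟩ := hint.exists_hasCompactSupport_integral_sub_le (half_pos hε)
    refine ⟨cor B g, cor_continuous hb hgc hgs, fun s => hεu ?_⟩
    have hd : Integrable (fun y => B.indicator (fun _ => (1 : ℝ)) y - g y) := hint.sub hgi
    have e1 : cor B (B.indicator fun _ => (1 : ℝ)) s - cor B g s =
        ∫ y in B, (B.indicator (fun _ => (1 : ℝ)) (y - s) - g (y - s)) := by
      unfold cor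
      rw [integral_sub]
      · exact (hint.comp_sub_right s).integrableOn
      · exact (hgi.comp_sub_right s).integrableOn
    rw [dist_eq_norm, e1]
    calc ‖∫ y in B, (B.indicator (fun _ => (1 : ℝ)) (y - s) - g (y - s))‖
        ≤ ∫ y in B, ‖B.indicator (fun _ => (1 : ℝ)) (y - s) - g (y - s)‖ :=
          norm_integral_le_integral_norm _
      _ ≤ ∫ y, ‖B.indicator (fun _ => (1 : ℝ)) (y - s) - g (y - s)‖ :=
          setIntegral_le_integral (hd.comp_sub_right s).norm
            (Eventually.of_forall fun _ => norm_nonneg _)
      _ = ∫ y, ‖B.indicator (fun _ => (1 : ℝ)) y - g y‖ :=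
          integral_sub_right_eq_self (fun y => ‖B.indicator (fun _ => (1 : ℝ)) y - g y‖) s
      _ ≤ ε / 2 := hgd
      _ < ε := half_lt_self hε
  have h1 : wt B = fun s => cor B (B.indicator fun _ => (1 : ℝ)) s / (volume B).toReal := by
    funext s
    unfold wt
    rw [int_eq hm]
  rw [h1]
  exact h0.div_const _

end

/-- Part WC. -/
theorem main : S_WC := by
  intro κ _ B hm hb hpos
  refine ⟨wt_continuous hm hb, ?_, ?_, ?_⟩
  · obtain ⟨R, hR⟩ := hb.exists_norm_le
    refine HasCompactSupport.of_support_subset_isCompact
      (isCompact_closedBall (0 : E κ) (R + R)) ?_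
    intro s hs
    rw [Function.mem_support] at hs
    by_contra hcon
    apply hs
    unfold wt
    have : B ∩ {y | y - s ∈ B} = ∅ := by
      ext y
      simp only [mem_inter_iff, mem_empty_iff_false, iff_false, not_and]
      intro hy hys
      apply hcon
      rw [mem_closedBall_zero_iff]
      have h1 := hR y hy
      have h2 : ‖y - s‖ ≤ R := hR _ hys
      calc ‖s‖ = ‖y - (y - s)‖ := by congr 1; abel
        _ ≤ ‖y‖ + ‖y - s‖ := norm_sub_le _ _
        _ ≤ R + R := add_le_add h1 h2
    rw [this]
    simp
  · intro s
    refine ⟨by unfold wt; positivity, ?_, ?_⟩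
    · unfold wt
      refine div_le_one_of_le₀ ?_ ENNReal.toReal_nonneg
      exact ENNReal.toReal_mono (vol_lt_top hb).ne (measure_mono inter_subset_left)
    · unfold wt
      congr 2
      have : B ∩ {y | y - -s ∈ B} = (fun y => y + s) ⁻¹' (B ∩ {y | y - s ∈ B}) := by
        ext y
        simp only [mem_inter_iff, mem_ofPred_eq, mem_preimage, sub_neg_eq_add, add_sub_cancel_right]
        exact and_comm
      rw [this, measure_preimage_add_right]
  · unfold wt
    have : B ∩ {y | y - 0 ∈ B} = B := by
      ext y
      simp
    rw [this]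
    exact div_self (ENNReal.toReal_pos hpos.ne' (vol_lt_top hb).ne).ne'

end Pool.Agent.Helper27.SPX.WC
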